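import Mathlib
import Pool.Agent.V1179.Spec.Parts
import Pool.Agent.V1179.Spec.Contr

/-!
# A spectral self-affine measure without overlap which has no Hadamard triple

`R = diag (4, 3)` and `B = {(0,0), (1,0), (8,1), (9,1)}`. The first coordinate maps the measure
injectively (a.e.) to Lebesgue measure on `[0,1] ∪ [2,3]`, which is spectral, and the digits are
pairwise incongruent modulo `R ℤ²`. The factor `(1 + e(p/4)) (1 + e(q/3))` of the digit polynomial
vanishes only when `p = 2 mod 4`, so at most two rows can be mutually orthogonal.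
-/

set_option autoImplicit false

namespace Pool.Agent.Results.MP_a3bfa4_an.SpectralNoHadamard

open MeasureTheory Matrix
open scoped ENNReal Real

/-- The map `x ↦ R⁻¹ (x + b)`. -/
noncomputable def tau {d : ℕ} (R : Matrix (Fin d) (Fin d) ℤ) (b : Fin d → ℤ) (x : Fin d → ℝ) :
    Fin d → ℝ :=
  (R.map (Int.cast : ℤ → ℝ))⁻¹ *ᵥ (x + fun i => (b i : ℝ))

/-- All eigenvalues have modulus greater than one. -/
def Expanding {d : ℕ} (R : Matrix (Fin d) (Fin d) ℤ) : Prop :=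
  ∀ z : ℂ, (R.map (Int.cast : ℤ → ℂ)).charpoly.IsRoot z → 1 < ‖z‖

/-- The equal-weight self-affine probability measure. -/
def IsSelfAffine {d : ℕ} (R : Matrix (Fin d) (Fin d) ℤ) (B : Finset (Fin d → ℤ))
    (μ : Measure (Fin d → ℝ)) : Prop :=
  IsProbabilityMeasure μ ∧ μ = ((B.card : ℝ≥0∞)⁻¹) • ∑ b ∈ B, μ.map (tau R b)

/-- The attractor. -/
def IsAttractor {d : ℕ} (R : Matrix (Fin d) (Fin d) ℤ) (B : Finset (Fin d → ℤ))
    (T : Set (Fin d → ℝ)) : Prop :=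
  IsCompact T ∧ T.Nonempty ∧ T = ⋃ b ∈ B, tau R b '' T

/-- The exponential `exp (2 π i l · x)`. -/
noncomputable def expo {d : ℕ} (l x : Fin d → ℝ) : ℂ :=
  Complex.exp (2 * π * Complex.I * ((∑ i, l i * x i : ℝ) : ℂ))

/-- Some family of exponentials is an orthonormal basis of `L²(μ)`: orthonormality together with
completeness. -/
def Spectral {d : ℕ} (μ : Measure (Fin d → ℝ)) : Prop :=
  ∃ Λ : Set (Fin d → ℝ),
    (∀ l ∈ Λ, ∀ l' ∈ Λ, (l = l' → ∫ x, expo (l - l') x ∂μ = 1) ∧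
      (l ≠ l' → ∫ x, expo (l - l') x ∂μ = 0)) ∧
    (∀ f : (Fin d → ℝ) → ℂ, MemLp f 2 μ → (∀ l ∈ Λ, ∫ x, f x * expo (-l) x ∂μ = 0) → f =ᵐ[μ] 0)

/-- `(R, B, L)` is a Hadamard triple: `L` has as many elements as `B`, and the rows of the matrix
with entries `exp (2 π i (R⁻¹ b) · l)` are orthogonal. -/
def HadamardTriple {d : ℕ} (R : Matrix (Fin d) (Fin d) ℤ) (B L : Finset (Fin d → ℤ)) : Prop :=
  L.card = B.card ∧ ∀ l ∈ L, ∀ l' ∈ L, l ≠ l' →
    ∑ b ∈ B, expo ((R.map (Int.cast : ℤ → ℝ))⁻¹ *ᵥ fun j => (b j : ℝ))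
      (fun i => ((l i : ℝ) - (l' i : ℝ))) = 0

theorem result : ∃ (R : Matrix (Fin 2) (Fin 2) ℤ) (B : Finset (Fin 2 → ℤ))
    (μ : Measure (Fin 2 → ℝ)) (T : Set (Fin 2 → ℝ)),
    R = !![4, 0; 0, 3] ∧ B = {![0, 0], ![1, 0], ![8, 1], ![9, 1]} ∧
    Expanding R ∧ 2 ≤ B.card ∧ (B.card : ℤ) < |R.det| ∧ (0 : Fin 2 → ℤ) ∈ B ∧
    (∀ b ∈ B, ∀ b' ∈ B, b ≠ b' → ¬ ∃ v : Fin 2 → ℤ, R *ᵥ v = b - b') ∧
    AddSubgroup.closure {v : Fin 2 → ℤ | ∃ k : ℕ, ∃ b ∈ B, v = (R ^ k) *ᵥ b} = ⊤ ∧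
    IsSelfAffine R B μ ∧ IsAttractor R B T ∧ Spectral μ ∧
    (∀ b ∈ B, ∀ b' ∈ B, b ≠ b' → μ (tau R b '' T ∩ tau R b' '' T) = 0) ∧
    ¬ ∃ L : Finset (Fin 2 → ℤ), HadamardTriple R B L := by
  have htau : ∀ b, tau V1179.Spec.R b = V1179.Spec.τ b := fun b => rfl
  refine ⟨V1179.Spec.R, V1179.Spec.B, V1179.Spec.μ, V1179.Spec.TT, rfl, rfl, V1179.Spec.root_R, ?_, ?_, ?_,
    V1179.Spec.simple_B, V1179.Spec.cl_B, ⟨inferInstance, V1179.Spec.μ_inv⟩,
    ⟨V1179.Spec.compact_TT, V1179.Spec.nonempty_TT, V1179.Spec.TT_eq⟩, ?_, ?_, ?_⟩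
  · rw [V1179.Spec.card_B]
    norm_num
  · rw [V1179.Spec.card_B]
    simp [V1179.Spec.R, Matrix.det_fin_two]
  · have : (0 : Fin 2 → ℤ) = ![0, 0] := by ext i; fin_cases i <;> rfl
    rw [this]
    simp [V1179.Spec.B]
  · refine ⟨V1179.Spec.Λ, ?_, ?_⟩
    · intro l hl l' hl'
      exact V1179.Spec.orth_Λ l hl l' hl'
    · intro f hf h
      refine V1179.Spec.complete f hf ?_
      intro l hl
      have h1 := h l hl
      rw [← h1]
      congr 1
      ext x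
      simp only [expo]
      congr 2
      simp only [Pi.neg_apply, neg_mul, Finset.sum_neg_distrib]
      push_cast
      ring
  · -- no overlap
    intro b hb b' hb' hne
    have hInv : V1179.Spec.Inv V1179.Spec.R V1179.Spec.B V1179.Spec.μ := by
      intro s hs
      have h1 : V1179.Spec.μ s = ∑ c ∈ V1179.Spec.B, ((V1179.Spec.B.card : ℝ≥0∞)⁻¹) *
          V1179.Spec.μ (V1179.Spec.ph V1179.Spec.R c ⁻¹' s) := by
        conv_lhs => rw [V1179.Spec.μ_inv]
        rw [Measure.smul_apply, Measure.finsetSum_apply, smul_eq_mul, Finset.mul_sum]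
        refine Finset.sum_congr rfl fun c _ => ?_
        rw [Measure.map_apply (V1179.Spec.measurable_τ c) hs]
        rfl
      rw [measureReal_def, h1, ENNReal.toReal_sum, Finset.mul_sum]
      · refine Finset.sum_congr rfl fun c _ => ?_
        rw [ENNReal.toReal_mul, ENNReal.toReal_inv, ENNReal.toReal_natCast, measureReal_def]
      · intro c _
        refine ENNReal.mul_ne_top ?_ (measure_ne_top _ _)
        rw [V1179.Spec.card_B]
        norm_num
    obtain ⟨c, hc0, hc, hcon⟩ := V1179.Spec.contr (by norm_num) V1179.Spec.R V1179.Spec.root_R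
    have hsupp := V1179.Spec.supp V1179.Spec.det_R hInv ⟨b, hb⟩ c hc0 hc hcon
      V1179.Spec.compact_TT V1179.Spec.nonempty_TT V1179.Spec.TT_eq
    exact V1179.Spec.no_overlap V1179.Spec.det_R hInv V1179.Spec.compact_TT V1179.Spec.TT_eq hsupp
      V1179.Spec.dist_R b hb b' hb' hne
  · rintro ⟨L, hcard, hL⟩
    rw [V1179.Spec.card_B] at hcard
    exact V1179.Spec.noL L hcard fun l hl l' hl' hne => hL l hl l' hl' hne

end Pool.Agent.Results.MP_a3bfa4_an.SpectralNoHadamard
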